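import Pool.Agent.H78.OX.Targets
import Pool.Agent.H12.OQ.CBG

/-!
# Not typical is a small formula (module CBX of ox_modules)
-/

set_option autoImplicit false

namespace Pool.Agent.H4.OX

open Finset Filter Pool.Agent.H6.NB Pool.Agent.H70.OQ Pool.Agent.H70.EH Pool.Agent.H78.XQ
open Pool.Agent.H78.OX

section

variable {V B Ω : Type} [DecidableEq Ω] {nn qb : Ω → ℕ} {D : Ω → (PosG B Ω nn qb → Bool) → Bool}
  {lev : Ω → ℕ} {S t d h S' : ℕ}

open Classical in
lemma cbx_dlt (h1 : T_EXG) (h2 : T_MEG) (h3 : T_CLG) (h4 : Pool.Agent.H6.NB.T_CLB)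
    (hsys : Syg D lev S t d h)
    (hS : 2 ≤ S') (hSS : S ≤ S') (htS : 2 ^ t ≤ S') (T U : (V → Bool) → B → Bool) (e : Ω → Bool)
    (P : (V → Bool) → Blk nn qb) (hT : ∀ b, Cl V S' 0 fun y => T y b)
    (hU : ∀ b, Cl V S' 0 fun y => U y b) (hP : ∀ s i v, Cl V S' 0 fun y => P y s i v) :
    ∀ (n : ℕ) (s : Ω), lev s < n →
      Cl V S' ((d + 5) * (lev s + 1)) fun y =>
        dlG (accG D (P y)) h (T y) (U y) e s := by
  obtain ⟨c1, c2, c3, c4, c5⟩ := h4 V S' hS
  intro n
  induction n with
  | zero => intro s hs; omega
  | succ n ih =>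
    intro s hs
    have hdlt : (fun y => dlG (accG D (P y)) h (T y) (U y) e s) =
        fun y => xor (D s (vlG (T y) e (P y)))
          (D s (vlG (U y) (exG (accG D (P y)) h (T y) (U y) e) (P y))) := by
      funext y
      rw [(h1 B Ω (accG D (P y)) lev h
        (h2 B Ω nn qb D lev S t d h hsys (P y)).1).2.2.1 (T y) (U y) e s]
      rfl
    rw [hdlt]
    have hA : Cl V S' ((d + 5) * lev s + (d + 3)) fun y =>
        D s (vlG (T y) e (P y)) := by
      have h5 := h3 (PosG B Ω nn qb) V S t d S' 0 (D s)
        (fun c y => vlG (T y) e (P y) c) hSS htS (fun c => by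
          cases c with
          | cst b => exact c1 0 b
          | bas a => exact hT a
          | key s' => exact c1 0 (e s')
          | blk s' i' v => exact hP s' i' v) (hsys.fm s)
      exact c2 _ _ _ (by omega) h5
    have hB : Cl V S' ((d + 5) * lev s + (d + 3)) fun y =>
        D s (vlG (U y) (exG (accG D (P y)) h (T y) (U y) e) (P y)) := by
      have hrep : (fun y => D s (vlG (U y) (exG (accG D (P y)) h (T y) (U y) e)
          (P y))) = fun y => D s fun c => if LwG lev (lev s) c then
            vlG (U y) (exG (accG D (P y)) h (T y) (U y) e) (P y) c else false := by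
        funext y
        apply hsys.low s
        intro c hc
        rw [if_pos hc]
      rw [hrep]
      have h5 := h3 (PosG B Ω nn qb) V S t d S' ((d + 5) * lev s + 1) (D s)
        (fun c y => if LwG lev (lev s) c then
            vlG (U y) (exG (accG D (P y)) h (T y) (U y) e) (P y) c else false)
        hSS htS (fun c => by
          by_cases hc : LwG lev (lev s) c
          · simp only [if_pos hc]
            cases c with
            | cst b => exact c1 _ b
            | bas a => exact c2 _ _ _ (Nat.zero_le _) (hU a)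
            | key s' =>
              have hs' : lev s' < lev s := hc
              have h6 := c2 _ ((d + 5) * lev s) _ (Nat.mul_le_mul_left _ hs') (ih s' (by omega))
              have h7 := Pool.Agent.H12.OQ.CBG.cl_xor_const h4 hS h6 (e s')
              have h8 : (fun y => vlG (U y) (exG (accG D (P y)) h (T y) (U y) e)
                  (P y) (PosG.key s')) =
                  fun y => xor (e s') (dlG (accG D (P y)) h (T y) (U y) e s') := by
                funext y
                exact Pool.Agent.H12.OQ.CBG.ex_eq _ _ _ _ _ _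
              rw [h8]
              exact h7
            | blk s' i' v => exact c2 _ _ _ (Nat.zero_le _) (hP s' i' v)
          · simp only [if_neg hc]
            exact c1 _ false) (hsys.fm s)
      exact c2 _ _ _ (by omega) h5
    have h9 := c5 _ _ _ hA hB
    have e1 : (d + 5) * (lev s + 1) = (d + 5) * lev s + (d + 3) + 2 := by ring
    rw [e1]
    exact h9

end

theorem cbx (h1 : T_EXG) (h2 : T_MEG) (h3 : T_CLG) (h4 : Pool.Agent.H6.NB.T_CLB) : T_CBX := by
  intro V X B Ω _ _ _ _ nn qb D lev S t d h S' M K hsys hS hSS htS hK hMS hcard hX T U e P hT hU hP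
  obtain ⟨c1, c2, c3, c4, c5⟩ := h4 V S' hS
  have hdl : ∀ (x : X) (s : Ω), Cl V S' ((d + 5) * h) fun y =>
      dlG (accG D (P y)) h (T y) (U y x) e s := by
    intro x s
    have hlt : lev s + 1 ≤ h := hsys.lt s
    exact c2 _ _ _ (Nat.mul_le_mul_left _ hlt)
      (cbx_dlt h1 h2 h3 h4 hsys hS hSS htS T (fun y => U y x) e P hT (hU x) hP (lev s + 1) s
        (Nat.lt_succ_self _))
  refine c3 ((d + 5) * h + 1) (Ω × (Fin (M + 1) → X))
    (fun sf y => if K (lev sf.1) + 1 ≤ (univ.image sf.2).card then
      decide (∃ i, dlG (accG D (P y)) h (T y) (U y (sf.2 i)) e sf.1 = false) else true)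
    (fun _ => false) _ ?_ ?_ ?_
  · simpa using hcard
  · intro sf
    by_cases hsf : K (lev sf.1) + 1 ≤ (univ.image sf.2).card
    · simp only [if_pos hsf]
      refine c3 ((d + 5) * h) (Fin (M + 1)) (fun i y =>
        dlG (accG D (P y)) h (T y) (U y (sf.2 i)) e sf.1) (fun _ => false) _
        (by simpa using hMS) (fun i => hdl _ _) ?_
      intro y
      rw [decide_eq_true_eq]
    · simp only [if_neg hsf]
      exact c1 _ true
  · intro p
    have hiff : ∀ (q : Prop) (inst : Decidable q), (@decide q inst = true) ↔ q :=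
      fun q _ => decide_eq_true_iff
    rw [hiff]
    unfold TyG
    push Not
    constructor
    · rintro ⟨s, hs, hcd⟩
      obtain ⟨R, hT1, hT2⟩ := Finset.exists_subset_card_eq
        (n := K (lev s) + 1) (s := dsG (accG D (P p)) h (T p) (U p) e s) hcd
      obtain ⟨f, hf⟩ := Pool.Agent.H12.OQ.CBG.exists_map (T := R) (M := M)
        (by rw [hT2]; have := hK _ hs; omega)
        (Finset.card_pos.1 (by omega))
      refine ⟨(s, f), ?_⟩
      simp only
      rw [if_pos (by rw [hf, hT2]), decide_eq_false_iff_not]
      rintro ⟨i, hi⟩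
      have h5 : f i ∈ R := by
        rw [← hf]
        exact mem_image_of_mem f (mem_univ i)
      have h6 := hT1 h5
      rw [dsG, mem_filter] at h6
      rw [h6.2] at hi
      exact Bool.noConfusion hi
    · rintro ⟨⟨s, f⟩, hsf⟩
      simp only at hsf
      by_cases hc : K (lev s) + 1 ≤ (univ.image f).card
      · rw [if_pos hc, decide_eq_false_iff_not] at hsf
        push Not at hsf
        refine ⟨s, hsys.lt s, lt_of_lt_of_le (Nat.lt_of_succ_le hc) (card_le_card ?_)⟩
        intro z hz
        rw [mem_image] at hz
        obtain ⟨i, -, rfl⟩ := hz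
        rw [dsG, mem_filter]
        refine ⟨mem_univ _, ?_⟩
        have := hsf i
        simpa using this
      · rw [if_neg hc] at hsf
        exact Bool.noConfusion hsf

end Pool.Agent.H4.OX
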