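import Pool.Agent.H78.OX.Targets

/-!
# There is a good configuration for every stage (module CFX of ox_modules)
-/

set_option autoImplicit false

namespace Pool.Agent.H4.OX

open Finset Filter Pool.Agent.H6.NB Pool.Agent.H70.OQ Pool.Agent.H70.EH Pool.Agent.H78.XQ
open Pool.Agent.H78.OX

lemma cfx_erx_nonneg (s : List Bool) (S D w : ℕ) : 0 ≤ erx s S D w := by
  unfold erx dvx
  positivity

lemma cfx_quarter {n : ℕ} (hn : 10 ≤ n) : (1 : ℝ) / 4 ≥ 2 / 2 ^ n ^ 2 := by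
  have : (8 : ℝ) ≤ 2 ^ n ^ 2 := by
    calc (8 : ℝ) = 2 ^ 3 := by norm_num
      _ ≤ 2 ^ n ^ 2 := pow_le_pow_right₀ (by norm_num) (by nlinarith)
  rw [ge_iff_le, div_le_div_iff₀ (by positivity) (by norm_num)]
  linarith

theorem cfx (hEXX : T_EXX) (hTBL : T_TBL) (hPRG : T_PRG) (hL12 : Pool.Agent.H6.NB.T_L12)
    (hFIS : Pool.Agent.H6.NB.T_FIS) (hGDX : T_GDX) (hWTX : T_WTX) (hCOX : T_COX) (hNMX : T_NMX) :
    T_CFX := by
  intro J c C ε hε
  obtain ⟨a, ha⟩ := hPRG J c C ε hε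
  refine ⟨a, ?_⟩
  filter_upwards [ha, eventually_ge_atTop 10] with n hn hn10
  obtain ⟨t, S', M, w', w0, w, r, K, δ, δm, hn2, hnc, hn1, hnt, hw01, htw0, hKw, herr, hPrm, hδm,
    hδ4, h2S, htS, hKM, hM1, hMS, hbig, hw1, hL, hfin⟩ := hn
  refine ⟨t, M, K, hn2, hnc, hn1, hnt, hM1, hKM, hfin, fun D hSys hLow => ?_⟩
  have hfinite : Finite (Om n (2 ^ a)) := hFIS.2.1 n (2 ^ a)
  let inst : Fintype (Om n (2 ^ a)) := Fintype.ofFinite _
  obtain ⟨hcard, hsum⟩ := hFIS.2.2 n (2 ^ a)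
  have hX : Fintype.card (Fin n → Bool) = 2 ^ n := by simp
  have hlen : ∀ s : Om n (2 ^ a), 100 ≤ s.1.length := fun s => by
    have := s.2.1
    nlinarith
  have hq := cfx_quarter hn10
  have hne : Nonempty (Hid (Fin n → Bool) (Ys n) (J + 1)) := hid_nonempty (J + 1)
  have hw0 : (0 : ℝ) < w0 := by exact_mod_cast hw01
  have hbase : ∀ f : (Nn n (J + 1) → Bool) → Bool, Fm (2 ^ t) t (J + 1) f →
      ((univ.filter fun p : Hid (Fin n → Bool) (Ys n) (J + 1) => K 0 < (univ.filter fun x =>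
        f (tabU (J + 1) p x) ≠ f (tabT (J + 1) p)).card).card : ℝ) ≤
        δ 0 * Fintype.card (Hid (Fin n → Bool) (Ys n) (J + 1)) := by
    intro f hf
    have h := hTBL (Fin n → Bool) (Ys n) J (2 ^ t) t w0 (2 ^ n) (K 0) (1 / (64 * w0)) hw01 htw0
      (by positivity) (by rw [mul_one_div, div_self (by positivity)]) hKw Nat.one_le_two_pow
      (fun i _ => by
        have e1 : Fintype.card (Node (Fin n → Bool) (Ys n) i) = 2 ^ ((2 ^ (i + 1) - 1) * n) :=
          card_Nn n i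
        rw [e1, Fintype.card_fun, Fintype.card_bool, Fintype.card_fin, ← pow_add]
        refine Nat.pow_le_pow_right (by norm_num) (le_of_eq ?_)
        have : 1 ≤ 2 ^ (i + 1) := Nat.one_le_two_pow
        obtain ⟨m, hm⟩ : ∃ m, 2 ^ (i + 1) = m + 1 := ⟨2 ^ (i + 1) - 1, by omega⟩
        rw [hm]
        simp only [Nat.add_sub_cancel]
        ring) f hf
    refine h.trans ?_
    exact mul_le_mul_of_nonneg_right herr (by positivity)
  have e0 : (J + 1 + 5) * a + 2 = (J + 6) * a + 1 + 1 := by ring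
  have hLs : ∀ s : Om n (2 ^ a), (128 * (w' : ℝ)) ^ (2 * ((J + 6) * a + 2)) * ((w' : ℝ) ^ 2 +
      (2 * 2 ^ qs s.1) ^ 2 * ((S' : ℝ) + 1) ^ ((J + 6) * a + 2) / 2 ^ w') + 1 ≤ 2 ^ n := fun s =>
    hL (qs s.1) (by have := s.2.2; simp only [qs]; omega)
  obtain ⟨H, κ, P, z, hTyp, hDec⟩ := hEXX (Hid (Fin n → Bool) (Ys n) (J + 1)) (Fin n → Bool)
    (Nn n (J + 1)) (Om n (2 ^ a)) (fun s => 2 ^ (2 * s.1.length)) (fun s => qs s.1)
    (fun s => wlx s.1) (fun p => tabT (J + 1) p)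
    (fun p => tabU (J + 1) p) D (fun s => lv n s.1) (2 ^ t) t (J + 1) a S' M w r K δ δm (2 ^ n - 1)
    (fun s => gdx s.1) (fun s => wtx s.1) (fun s => (1 / 4) ^ s.1.length)
    (fun s => erx s.1 S' ((J + 6) * a + 2) w')
    hSys hLow (by rw [hX]; exact hPrm) hbase hδm (by rw [hX]; exact Nat.one_le_two_pow) h2S htS htS
    hKM hMS (by rw [hX]; exact (Nat.mul_le_mul_right _ hcard).trans hbig)
    (fun s => by simp only [qs]; omega)
    (fun s f hf => by
      rw [e0] at hf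
      have := hL12 (VV (qs s.1)) S' ((J + 6) * a + 1) w' f hw1 hf
      refine this.trans ?_
      have hc : (Fintype.card (VV (qs s.1)) : ℝ) = 2 * 2 ^ qs s.1 := by
        have : Fintype.card (VV (qs s.1)) = 2 * 2 ^ qs s.1 := by simp [VV]
        rw [this]; push_cast; rfl
      rw [hc]
      have h := hLs s
      have e1 : (J + 6) * a + 1 + 1 = (J + 6) * a + 2 := rfl
      rw [e1]
      linarith)
    (fun s b => hGDX s.1 b (hlen s))
    (fun s b P hP => ⟨(hWTX s.1 b P (hlen s) hP).1, fun f hf => by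
      rw [e0] at hf
      exact hCOX s.1 b P S' ((J + 6) * a + 1) w' f (hlen s) hP hw1 hf⟩)
    (fun s => cfx_erx_nonneg _ _ _ _)
    (by
      have hδ0 : (0 : ℝ) ≤ δm := by
        by_contra hneg
        push Not at hneg
        rcases Nat.eq_zero_or_pos a with ha0 | ha0
        · rw [ha0] at hn1
          have h3 : 1 ≤ 2 ^ (J + 2) := Nat.one_le_two_pow
          have h4 := Nat.mul_le_mul_right n h3
          simp only [pow_zero, pow_one] at hn1
          omega
        · have := hPrm.δ_nonneg 0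
          have h3 := hδm 0 ha0
          linarith
      refine le_trans (mul_le_mul_of_nonneg_right (b := ((Fintype.card (Om n (2 ^ a)) : ℕ) : ℝ))
        (c := (2 : ℝ) ^ n ^ 2 ^ a) ?_ hδ0) hδ4
      exact_mod_cast hcard)
    (by
      refine le_trans (sum_le_sum fun s _ => ?_) (hsum.trans hq)
      exact hNMX n s.1 S' ((J + 6) * a + 2) w' hn10 s.2.1 hw1 (hLs s))
    (hsum.trans hq)
  exact ⟨H, κ, P, z, hTyp, fun s =>
    (hWTX s.1 (κ s) (P s) (hlen s) (hDec s).1).2.2 _ (hDec s).2⟩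

end Pool.Agent.H4.OX
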