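import Pool.Agent.H78.OX.Targets
import Pool.Agent.H73.OQ.ING

/-!
Module INX: there is a good seed at the beginning.
-/

set_option autoImplicit false

namespace Pool.Agent.H4.OX

open Finset Pool.Agent.H6.NB Pool.Agent.H70.OQ Pool.Agent.H70.EH Pool.Agent.H78.XQ
open Pool.Agent.H78.OX Pool.Agent.H73.OQ.ING

/-- There is a function with a given number of true values. -/
theorem exists_nt {V : Type} [Fintype V] [DecidableEq V] (m : ℕ) (h : m ≤ Fintype.card V) :
    ∃ y : V → Bool, nt y = m := by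
  obtain ⟨S, hS1, hS2⟩ := Finset.exists_subset_card_eq (s := (univ : Finset V)) (n := m)
    (by simpa using h)
  refine ⟨fun v => decide (v ∈ S), ?_⟩
  unfold nt
  rw [← hS2]
  congr 1
  ext v
  simp

/-- A correction string for constant copies. -/
theorem exists_fit (hITG : T_ITG) (s : List Bool) :
    ∃ p : Bool × ((Fin (wlx s) → Bool) → Bool),
      Fit (qs s) (rnx s) (wlx s) p.1 (fun (_ : Fin (2 * s.length) → Bool) (_ : VV (qs s)) => false)
        p.2 := by
  obtain ⟨K, hK1, hK2⟩ := hITG s.length (qs s) (rnx s) (fun _ _ => false)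
  have hK1' : K ≤ 2 ^ wlx s := hK1
  have hK2' : kap (qs s) (rnx s)
      (fun (_ : Fin (2 * s.length) → Bool) (_ : VV (qs s)) => false) = K / 2 ^ wlx s := hK2
  have hr : 1 ≤ wlx s := by
    unfold wlx rnx
    have h1 : 0 < 2 * s.length + 3 * qs s := by unfold qs; omega
    have h2 : 0 < 2048 * (qs s + 3) ^ 2 * (s.length + 1) :=
      Nat.mul_pos (Nat.mul_pos (Nat.succ_pos 2047) (Nat.pow_pos (Nat.succ_pos _))) (Nat.succ_pos _)
    exact Nat.mul_pos h2 h1
  obtain ⟨r, hr'⟩ : ∃ r, wlx s = r + 1 := Nat.exists_eq_add_one.2 hr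
  have hcard : Fintype.card (Fin (wlx s) → Bool) = 2 ^ wlx s := by simp
  have hpow : (2 : ℕ) ^ wlx s = 2 * 2 ^ r := by rw [hr', pow_succ]; ring
  have hpowR : (2 : ℝ) ^ wlx s = 2 * 2 ^ r := by rw [hr', pow_succ]; ring
  have hpos : (0 : ℝ) < 2 ^ r := by positivity
  by_cases hK : K ≤ 2 ^ r
  · obtain ⟨y, hy⟩ := exists_nt (V := Fin (wlx s) → Bool) (2 ^ r - K) (by rw [hcard, hpow]; omega)
    refine ⟨(true, y), ?_⟩
    unfold Fit
    rw [hK2', hy, Nat.cast_sub hK, hpowR]
    simp only [if_true]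
    push_cast
    field_simp
  · push Not at hK
    have h3 : K ≤ 3 * 2 ^ r := by rw [hpow] at hK1'; omega
    obtain ⟨y, hy⟩ := exists_nt (V := Fin (wlx s) → Bool) (3 * 2 ^ r - K) (by rw [hcard, hpow]; omega)
    refine ⟨(false, y), ?_⟩
    unfold Fit
    rw [hK2', hy, Nat.cast_sub h3, hpowR]
    simp only [Bool.false_eq_true, if_false]
    push_cast
    field_simp

open Classical in
/-- The seed. -/
noncomputable def seedX (k : ℕ) (p : ∀ s, Bool × ((Fin (wlx s) → Bool) → Bool)) : List Bool → Bool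
  | [] => false
  | false :: t => val k t
  | true :: t => if h : ∃ s, true :: t = key s then (p h.choose).1
      else if h : ∃ q : Σ s, Fin (wlx s) → Bool, true :: t = wx q.1 q.2 then (p h.choose.1).2 h.choose.2
      else false

open Classical in
theorem seedX_true (k : ℕ) (p : ∀ s, Bool × ((Fin (wlx s) → Bool) → Bool)) (t : List Bool) :
    seedX k p (true :: t) = if h : ∃ s, true :: t = key s then (p h.choose).1
      else if h : ∃ q : Σ s, Fin (wlx s) → Bool, true :: t = wx q.1 q.2 then (p h.choose.1).2 h.choose.2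
      else false := rfl

theorem seedX_key (hLNX : T_LNX) (k : ℕ) (p : ∀ s, Bool × ((Fin (wlx s) → Bool) → Bool))
    (s : List Bool) : seedX k p (key s) = (p s).1 := by
  obtain ⟨-, -, -, -, -, -, -, -, l9, -, -, -⟩ := hLNX
  obtain ⟨t, ht⟩ : ∃ t, key s = true :: t := ⟨_, rfl⟩
  have h : ∃ s', true :: t = key s' := ⟨s, ht.symm⟩
  have e : h.choose = s := (l9 _ _ (by rw [ht]; exact h.choose_spec)).symm
  rw [ht, seedX_true, dif_pos h, e]

theorem seedX_wx (hLNX : T_LNX) (hCOD : Pool.Agent.H6.NB.T_COD) (k : ℕ)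
    (p : ∀ s, Bool × ((Fin (wlx s) → Bool) → Bool))
    (s : List Bool) (z : Fin (wlx s) → Bool) : seedX k p (wx s z) = (p s).2 z := by
  obtain ⟨-, -, -, -, l5, -, -, -, -, -, l11, -⟩ := hLNX
  obtain ⟨t, ht⟩ : ∃ t, wx s z = true :: t := ⟨_, rfl⟩
  have h0 : ¬ ∃ s', true :: t = key s' := by
    rintro ⟨s', h⟩
    rw [← ht] at h
    exact l5 _ _ _ h
  have h : ∃ q : Σ s, Fin (wlx s) → Bool, true :: t = wx q.1 q.2 := ⟨⟨s, z⟩, ht.symm⟩
  have e : h.choose = ⟨s, z⟩ := by
    have h1 : wx s z = wx h.choose.1 h.choose.2 := ht.trans h.choose_spec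
    generalize h.choose = q at h1
    obtain ⟨s', z'⟩ := q
    have h2 : s = s' := l11 _ _ _ _ h1
    subst h2
    unfold wx wps at h1
    have h3 := (List.cons.inj (List.cons.inj h1).2).2
    have h4 := (hCOD.1 _ _ _ _ _ _ h3).2.1
    rw [List.ofFn_injective h4]
  rw [ht, seedX_true, dif_neg h0, dif_pos h, e]

theorem seedX_bx (hLNX : T_LNX) (k : ℕ) (p : ∀ s, Bool × ((Fin (wlx s) → Bool) → Bool))
    (s : List Bool) (i : Fin (2 ^ (2 * s.length))) (v : VV (qs s)) : seedX k p (bx s i v) = false := by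
  obtain ⟨-, -, -, l4, -, -, -, -, -, -, -, l12⟩ := hLNX
  obtain ⟨t, ht⟩ : ∃ t, bx s i v = true :: t := ⟨_, rfl⟩
  have h0 : ¬ ∃ s', true :: t = key s' := by
    rintro ⟨s', h⟩
    rw [← ht] at h
    exact l4 _ _ _ _ h
  have h : ¬ ∃ q : Σ s, Fin (wlx s) → Bool, true :: t = wx q.1 q.2 := by
    rintro ⟨q, h⟩
    rw [← ht] at h
    exact l12 _ _ _ _ _ h
  rw [ht, seedX_true, dif_neg h0, dif_neg h]

theorem inx (hNDV : T_NDV) (hNST : T_NST) (hITG : T_ITG) (hLNX : T_LNX)
    (hCOD : Pool.Agent.H6.NB.T_COD) : T_INX := by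
  intro k
  choose p hp using exists_fit hITG
  refine ⟨seedX k p, fun s => ?_, fun n => ?_⟩
  · unfold DecX
    have h1 : cps (sh (seedX k p)) s = fun (_ : Fin (2 * s.length) → Bool) (_ : VV (qs s)) => false := by
      funext u v
      have h2 := seedX_bx hLNX k p s ((eu (2 * s.length)).symm u) v
      unfold bx at h2
      rw [Equiv.apply_symm_apply] at h2
      exact h2
    have h3 : (fun z => sh (seedX k p) (wps s (List.ofFn z))) = (p s).2 := by
      funext z
      exact seedX_wx hLNX hCOD k p s z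
    rw [h1, h3, seedX_key hLNX]
    exact hp s
  · have key := hNDV k n (seedX k p) (fun x => !decide (x = fun _ => false)) (H0 n k)
      (fun p => val_nstr hNST k n p)
    refine ⟨List.ofFn (fun _ : Fin n => false), ⟨by simp, ?_⟩, ?_⟩
    · rw [key]
      simp
    · rintro u ⟨hu, hs⟩
      subst hu
      have e : u = List.ofFn (fun i : Fin u.length => u.get i) := (List.ofFn_get u).symm
      rw [e, key] at hs
      have hs2 : (fun i : Fin u.length => u.get i) = fun _ => false := by simpa using hs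
      rw [← hs2]
      exact e

end Pool.Agent.H4.OX
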