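import Pool.Agent.H78.OX.Targets
import Pool.Agent.H12.OQ.LKG

/-!
Module LKX: the values of the oracle of the stage.
-/

set_option autoImplicit false

namespace Pool.Agent.H4.OX

open Finset Pool.Agent.H6.NB Pool.Agent.H70.OQ Pool.Agent.H70.EH Pool.Agent.H78.XQ
open Pool.Agent.H78.OX

theorem lkx (hBUG : T_BUG) (hCLX : Pool.Agent.H78.OX.T_CLX) (hNST : T_NST) (hLNX : T_LNX) : T_LKX := by
  intro J A n a σ₀ O₀ O T κ P z hS hn hB₀ hB w hw
  obtain ⟨l1, l2, l3, l4, l5, l6, l7, l8, -⟩ := hLNX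
  obtain ⟨c1, c2, c3, c4, c5⟩ := hCLX J n a O₀
  obtain ⟨d1, d2, d3, d4, d5⟩ := hCLX J n a σ₀
  by_cases e1 : ∃ p : Nn n J, w = false :: nstr n J p
  · obtain ⟨p, rfl⟩ := e1
    rw [c1, Pool.Agent.H12.OQ.LKG.Bld_not_key hB (fun s => l6 _ s)]
    unfold sdx
    rw [d1]
    rfl
  by_cases e2 : ∃ s : Om n a, w = key s.1
  · obtain ⟨s, rfl⟩ := e2
    rw [c2]
    rfl
  by_cases e3 : ∃ (s : Om n a) (i : Fin (2 ^ (2 * s.1.length))) (v : VV (qs s.1)), w = bx s.1 i v
  · obtain ⟨s, i, v, rfl⟩ := e3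
    rw [c3, Pool.Agent.H12.OQ.LKG.Bld_not_key hB (fun s' => l4 _ _ _ _)]
    unfold sdx
    rw [d3]
    rfl
  by_cases e4 : ∃ (s : Om n a) (z : Fin (wlx s.1) → Bool), w = wx s.1 z
  · obtain ⟨s, v, rfl⟩ := e4
    rw [c4, Pool.Agent.H12.OQ.LKG.Bld_not_key hB (fun s' => l5 _ _ _)]
    unfold sdx
    rw [d4]
    rfl
  have f1 : clx J n a O₀ w = .cst (O₀ w) := by
    rcases c5 w with h | h | h | h | h
    · exact absurd h e1
    · exact absurd h e2
    · exact absurd h e3
    · exact absurd h e4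
    · exact h
  have f2 : clx J n a σ₀ w = .cst (σ₀ w) := by
    rcases d5 w with h | h | h | h | h
    · exact absurd h e1
    · exact absurd h e2
    · exact absurd h e3
    · exact absurd h e4
    · exact h
  have hsw : sdx J n a σ₀ T κ P z w = σ₀ w := by
    unfold sdx
    rw [f2]
    rfl
  rw [f1]
  change O w = O₀ w
  by_cases hk : ∃ s, w = key s
  · obtain ⟨s, rfl⟩ := hk
    rw [Pool.Agent.H12.OQ.LKG.Bld_key hB, Pool.Agent.H12.OQ.LKG.Bld_key hB₀, hsw]
    congr 1
    -- the instance is short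
    have hlen : (key s).length = s.length + 2 := l1 s
    have hs1 : s.length < n ^ a := by omega
    have hs2 : s.length < n ^ 2 := by
      by_contra hcon
      push Not at hcon
      exact e2 ⟨⟨s, hcon, hs1⟩, rfl⟩
    -- the seeds agree below `n`
    have hagree : ∀ w : List Bool, w.length ≤ n - 1 → sdx J n a σ₀ T κ P z w = σ₀ w := by
      intro w' hw'
      have hnn : n ≤ n ^ 2 := by nlinarith
      rcases d5 w' with ⟨p, rfl⟩ | ⟨s', rfl⟩ | ⟨s', i, v, rfl⟩ | ⟨s', v, rfl⟩ | h
      · exfalso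
        rw [List.length_cons, (hNST n J).1] at hw'
        have h6 : 1 ≤ 2 ^ (J + 1) - 1 := by
          have h7 : 2 ^ 1 ≤ 2 ^ (J + 1) := Nat.pow_le_pow_right (by norm_num) (by omega)
          omega
        have h8 : n ≤ (2 ^ (J + 1) - 1) * n := Nat.le_mul_of_pos_left n h6
        omega
      · exfalso
        have := s'.2.1
        rw [l1] at hw'
        omega
      · exfalso
        have := s'.2.1
        have h5 := l2 s'.1 i v
        omega
      · exfalso
        have := s'.2.1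
        have h5 := l3 s'.1 v
        omega
      · unfold sdx
        rw [h]
        rfl
    have hacc : A s O ↔ A s O₀ := by
      apply hS s O O₀
      intro w' hw'
      have hmn : w'.length ≤ n - 1 := by
        by_contra hcon
        push Not at hcon
        have h6 : n ≤ w'.length := by omega
        have : n ^ 2 ≤ w'.length ^ 2 := Nat.pow_le_pow_left h6 2
        omega
      exact hBUG A _ σ₀ O O₀ (n - 1) hS hB hB₀ hagree w' hmn
    exact decide_eq_decide.2 hacc
  · push Not at hk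
    rw [Pool.Agent.H12.OQ.LKG.Bld_not_key hB hk, Pool.Agent.H12.OQ.LKG.Bld_not_key hB₀ hk, hsw]

end Pool.Agent.H4.OX
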